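import Mathlib

namespace Pool.Agent.Results.MP_f363fd_co.Yes

open Finset Function

/-- `|∂A|`: the number of edges with one endpoint in `A` and the other outside `A`. -/
noncomputable def bd {V : Type} (Γ : SimpleGraph V) (A : Set V) : ℕ :=
  {e ∈ Γ.edgeSet | ∃ u ∈ A, ∃ v ∉ A, e = s(u, v)}.ncard

/-- The `n`-way isoperimetric constant; a partition into `n` non-empty parts is given by a
surjective labelling `f : V → Fin n`, the parts being its fibres. -/
noncomputable def h {V : Type} (Γ : SimpleGraph V) (n : ℕ) : ℝ :=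
  ⨅ f : {f : V → Fin n // Surjective f},
    ⨆ i, (bd Γ (f.1 ⁻¹' {i}) : ℝ) / (f.1 ⁻¹' {i}).ncard

/-- `Aut Γ` is transitive on vertices. -/
def VertexTransitive {V : Type} (Γ : SimpleGraph V) : Prop :=
  ∀ u v, ∃ g : Γ ≃g Γ, g u = v

/-- `Aut Γ` has a system of imprimitivity with `n` blocks. -/
def HasBlocks {V : Type} (Γ : SimpleGraph V) (n : ℕ) : Prop :=
  ∃ f : V → Fin n, Surjective f ∧ ∀ (g : Γ ≃g Γ) (i : Fin n), ∃ j, g '' (f ⁻¹' {i}) = f ⁻¹' {j}

section
open Classical
variable {V : Type} [Fintype V] (Γ : SimpleGraph V)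

noncomputable def D (S : Finset V) : ℝ :=
  ∑ u, ∑ v, if Γ.Adj u v ∧ u ∈ S ∧ v ∉ S then 1 else 0

noncomputable def cut {α : Type} (φ : V → α) (u : V) : ℝ :=
  ∑ v, if Γ.Adj u v ∧ φ v ≠ φ u then 1 else 0

noncomputable def fib {α : Type} (φ : V → α) (i : α) : Finset V := univ.filter fun v => φ v = i

@[simp] lemma mem_fib {α : Type} (φ : V → α) (i : α) (v : V) : v ∈ fib φ i ↔ φ v = i := by
  simp [fib]

lemma ifc {p q : Prop} {dp : Decidable p} {dq : Decidable q} {a b : ℝ} (h : p ↔ q) :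
    @ite _ p dp a b = @ite _ q dq a b := by
  by_cases hp : p
  · rw [if_pos hp, if_pos (h.1 hp)]
  · rw [if_neg hp, if_neg (fun hq => hp (h.2 hq))]

lemma bd_eq (S : Finset V) : (bd Γ S : ℝ) = D Γ S := by
  have h1 : D Γ S = ((univ.filter fun p : V × V => Γ.Adj p.1 p.2 ∧ p.1 ∈ S ∧ p.2 ∉ S).card : ℝ) := by
    rw [D, ← Fintype.sum_prod_type', card_filter]; push_cast; rfl
  rw [h1, ← Set.ncard_coe_finset, bd]
  congr 1
  symm
  refine Set.ncard_congr (fun p _ => s(p.1, p.2)) ?_ ?_ ?_
  · intro p hp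
    simp only [coe_filter, mem_univ, true_and, Set.mem_setOf_eq] at hp
    exact ⟨hp.1, p.1, hp.2.1, p.2, hp.2.2, rfl⟩
  · intro p q hp hq e
    simp only [coe_filter, mem_univ, true_and, Set.mem_setOf_eq] at hp hq
    rcases Sym2.eq_iff.1 e with ⟨a, b⟩ | ⟨a, b⟩
    · exact Prod.ext a b
    · exact (hq.2.2 (a ▸ hp.2.1)).elim
  · rintro e ⟨he, u, hu, v, hv, rfl⟩
    exact ⟨(u, v), by simpa using ⟨he, hu, hv⟩, rfl⟩

lemma D_nonneg (S : Finset V) : 0 ≤ D Γ S :=
  sum_nonneg fun _ _ => sum_nonneg fun _ _ => by split_ifs <;> norm_num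

lemma cut_nonneg {α : Type} (φ : V → α) (u : V) : 0 ≤ cut Γ φ u :=
  sum_nonneg fun _ _ => by split_ifs <;> norm_num

lemma D_fib {α : Type} (φ : V → α) (i : α) : D Γ (fib φ i) = ∑ u ∈ fib φ i, cut Γ φ u := by
  rw [D, fib, sum_filter]
  refine sum_congr rfl fun u _ => ?_
  by_cases hu : φ u = i
  · simp [hu, cut]
  · simp [hu]

lemma D_inter {α β : Type} (φ : V → α) (ψ : V → β) (i : α) (j : β) :
    D Γ (fib φ i ∩ fib ψ j) ≤ ∑ u ∈ fib φ i ∩ fib ψ j, (cut Γ φ u + cut Γ ψ u) := by
  rw [D, ← sum_subset (subset_univ (fib φ i ∩ fib ψ j)) (fun u _ hu => by simp [hu])]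
  refine sum_le_sum fun u hu => ?_
  rw [cut, cut, ← sum_add_distrib]
  refine sum_le_sum fun v _ => ?_
  simp only [mem_inter, mem_fib] at hu ⊢
  rw [hu.1, hu.2]
  split_ifs <;> first | (norm_num; done) | (exfalso; tauto)

lemma D_inter' (S T : Finset V) : D Γ (S ∩ T) ≤ D Γ S + D Γ T := by
  rw [D, D, D, ← sum_add_distrib]
  refine sum_le_sum fun u _ => ?_
  rw [← sum_add_distrib]
  refine sum_le_sum fun v _ => ?_
  simp only [mem_inter]
  split_ifs <;> first | (norm_num; done) | (exfalso; tauto)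

lemma D_sdiff (S T : Finset V) : D Γ (S \ T) ≤ D Γ S + D Γ T := by
  have : D Γ T = ∑ u, ∑ v, if Γ.Adj u v ∧ v ∈ T ∧ u ∉ T then 1 else 0 := by
    rw [D, sum_comm]; simp only [Γ.adj_comm]
  rw [this, D, D, ← sum_add_distrib]
  refine sum_le_sum fun u _ => ?_
  rw [← sum_add_distrib]
  refine sum_le_sum fun v _ => ?_
  simp only [mem_sdiff]
  split_ifs <;> first | (norm_num; done) | (exfalso; tauto)

lemma exists_good {ι : Type} (s : Finset ι) (x y : ι → ℝ) (c : ℝ) (hx : ∀ i, 0 ≤ x i)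
    (hy : ∀ i, 0 ≤ y i) (h0 : 0 < ∑ i ∈ s, y i) (h1 : ∑ i ∈ s, x i ≤ c * ∑ i ∈ s, y i) :
    ∃ i ∈ s, 0 < y i ∧ x i ≤ c * y i := by
  by_contra hc
  push Not at hc
  obtain ⟨i, hi, hyi⟩ := exists_lt_of_sum_lt (s := s) (f := fun _ => (0 : ℝ)) (g := y)
    (by simpa using h0)
  have : ∑ i ∈ s, c * y i < ∑ i ∈ s, x i := by
    refine sum_lt_sum (fun j hj => ?_) ⟨i, hi, hc i hi hyi⟩
    rcases (hy j).lt_or_eq with h | h
    · exact (hc j hj h).le
    · rw [← h, mul_zero]; exact hx j
  rw [← mul_sum] at this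
  linarith

lemma split {n : ℕ} {H : ℝ} (hH : 0 < H)
    (hno : ∀ ψ : V → Fin (n + 1), Surjective ψ → ∃ i, 100 * H * #(fib ψ i) < D Γ (fib ψ i))
    (φ : V → Fin n) (hφ : Surjective φ) (hf : ∀ i, D Γ (fib φ i) ≤ H * #(fib φ i)) (i : Fin n)
    (P : Finset V) (hP : P ⊆ fib φ i) (h1 : P.Nonempty) (h2 : (fib φ i \ P).Nonempty) :
    100 * H * #P < D Γ P ∨ 100 * H * #(fib φ i \ P) < D Γ (fib φ i \ P) := by
  obtain ⟨ψ, hψ⟩ : ∃ ψ : V → Fin (n + 1),
    ψ = fun v => if v ∈ P then Fin.last n else (φ v).castSucc := ⟨_, rfl⟩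
  have e1 : fib ψ (Fin.last n) = P := by
    ext v; by_cases hv : v ∈ P <;> simp [hψ, hv, Fin.castSucc_ne_last]
  have e2 : ∀ j, fib ψ j.castSucc = fib φ j \ P := by
    intro j; ext v; by_cases hv : v ∈ P <;> simp [hψ, hv, (Fin.castSucc_ne_last j).symm]
  have e3 : ∀ j, j ≠ i → fib φ j \ P = fib φ j := by
    intro j hj; ext v
    have : v ∈ P → φ v = i := fun hv => (mem_fib _ _ _).1 (hP hv)
    simp only [mem_sdiff, mem_fib, and_iff_left_iff_imp]
    rintro rfl hv; exact hj (this hv)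
  obtain ⟨j, hj⟩ := hno ψ (by
    intro j
    induction j using Fin.lastCases with
    | last => obtain ⟨v, hv⟩ := h1; exact ⟨v, (mem_fib _ _ _).1 (e1 ▸ hv)⟩
    | cast j =>
      by_cases hj : j = i
      · obtain ⟨v, hv⟩ := h2; exact ⟨v, (mem_fib _ _ _).1 (by rw [e2, hj]; exact hv)⟩
      · obtain ⟨v, hv⟩ := hφ j
        exact ⟨v, (mem_fib _ _ _).1 (by rw [e2, e3 j hj]; simpa using hv)⟩)
  induction j using Fin.lastCases with
  | last => left; rwa [e1] at hj
  | cast j =>
    by_cases hji : j = i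
    · right; rwa [e2, hji] at hj
    · rw [e2, e3 j hji] at hj
      have := hf j
      have : (0 : ℝ) ≤ H * #(fib φ j) := by positivity
      linarith

lemma big {n : ℕ} {H : ℝ} (hH : 0 < H)
    (hno : ∀ ψ : V → Fin (n + 1), Surjective ψ → ∃ i, 100 * H * #(fib ψ i) < D Γ (fib ψ i))
    (φ : V → Fin n) (hφ : Surjective φ) (hf : ∀ i, D Γ (fib φ i) ≤ H * #(fib φ i)) (i : Fin n)
    (P : Finset V) (hP : P ⊆ fib φ i) (h1 : (0 : ℝ) < #P) (h3 : D Γ P ≤ 3 * H * #P) :
    96 * (#(fib φ i) : ℝ) ≤ 100 * #P := by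
  have hc : (#(fib φ i \ P) : ℝ) + #P = #(fib φ i) := by
    exact_mod_cast card_sdiff_add_card_eq_card hP
  rcases (fib φ i \ P).eq_empty_or_nonempty with h | h
  · rw [h, card_empty, Nat.cast_zero] at hc; linarith
  rcases split Γ hH hno φ hφ hf i P hP (card_pos.1 (by exact_mod_cast h1)) h with h4 | h4
  · nlinarith
  · have h5 := D_sdiff Γ (fib φ i) P
    have h6 := hf i
    have h7 : (0 : ℝ) ≤ #(fib φ i \ P) := by positivity
    have : H * (100 * #(fib φ i \ P)) < H * (#(fib φ i) + 3 * #P) := by linarith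
    have := lt_of_mul_lt_mul_left this hH.le
    linarith

variable {G : Type} [Group G] [Fintype G] [MulAction G V]

lemma sum_tr (g : G) (F : V → ℝ) : ∑ u, F (g • u) = ∑ v, F v :=
  Equiv.sum_comp (MulAction.toPerm g) F

lemma avg0 (htr : ∀ u v : V, ∃ g : G, g • u = v) (T : V → ℝ) (hT : ∀ (g : G) u, T (g • u) = T u)
    (u : V) : Fintype.card V * T u = ∑ v, T v := by
  have : ∀ v, T v = T u := fun v => by obtain ⟨g, rfl⟩ := htr u v; exact hT g u
  simp [this]

lemma avg (htr : ∀ u v : V, ∃ g : G, g • u = v) (F : V → ℝ) (u : V) :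
    Fintype.card V * ∑ g : G, F (g • u) = Fintype.card G * ∑ v, F v := by
  rw [avg0 htr (fun u => ∑ g : G, F (g • u)) (fun γ u => by
    simp only [← mul_smul]; exact Equiv.sum_comp (Equiv.mulRight γ) fun g => F (g • u)), sum_comm]
  simp [sum_tr]

lemma cut_tr (hadj : ∀ (g : G) u v, Γ.Adj (g • u) (g • v) ↔ Γ.Adj u v) {α : Type} (φ : V → α)
    (g : G) (u : V) : cut Γ (fun v => φ (g • v)) u = cut Γ φ (g • u) := by
  rw [cut, cut, ← sum_tr g (fun v => if Γ.Adj (g • u) v ∧ φ v ≠ φ (g • u) then 1 else 0)]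
  simp only [hadj]

lemma card_eq_sum (S : Finset V) : (#S : ℝ) = ∑ v, if v ∈ S then 1 else 0 := by simp

lemma card_tr {α : Type} (φ : V → α) (g : G) (i : α) :
    (#(fib (fun v => φ (g • v)) i) : ℝ) = #(fib φ i) := by
  rw [card_eq_sum, card_eq_sum, ← sum_tr g (fun v => if v ∈ fib φ i then 1 else 0)]
  simp only [mem_fib]

lemma D_tr (hadj : ∀ (g : G) u v, Γ.Adj (g • u) (g • v) ↔ Γ.Adj u v) {α : Type} (φ : V → α)
    (g : G) (i : α) : D Γ (fib (fun v => φ (g • v)) i) = D Γ (fib φ i) := by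
  rw [D_fib, D_fib, fib, fib, sum_filter, sum_filter,
    ← sum_tr g (fun v => if φ v = i then cut Γ φ v else 0)]
  simp only [cut_tr Γ hadj]

lemma sum_cut {n : ℕ} {H : ℝ} (φ : V → Fin n) (hf : ∀ i, D Γ (fib φ i) ≤ H * #(fib φ i)) :
    ∑ u, cut Γ φ u ≤ H * Fintype.card V := by
  rw [← sum_fiberwise univ φ, ← card_univ, card_eq_sum_card_fiberwise
    (f := φ) (t := univ) (fun _ _ => mem_univ _)]
  push_cast
  rw [mul_sum]
  refine sum_le_sum fun i _ => ?_
  have := hf i
  rw [D_fib] at this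
  have e : (univ.filter fun v => φ v = i) = fib φ i := by ext v; simp
  rw [e]; exact this

theorem finish {n : ℕ} {H : ℝ} (hH : 0 < H)
    (hno : ∀ ψ : V → Fin (n + 1), Surjective ψ → ∃ i, 100 * H * #(fib ψ i) < D Γ (fib ψ i))
    (f : V → Fin n) (hs : Surjective f) (hf : ∀ i, D Γ (fib f i) ≤ H * #(fib f i))
    {α : Type} (K : V → α) (KG : ∀ (γ : G) u v, K u = K v → K (γ • u) = K (γ • v))
    (Kcut : ∀ u, cut Γ K u ≤ 2 * H) (a b : ℝ) (a0 : 0 < a) (ab : 96 * b ≤ 100 * a)
    (la : ∀ j, a ≤ #(fib f j)) (Ksize : ∀ u, 98 * (#(fib K (K u)) : ℝ) ≤ 100 * b) :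
    ∃ φ : V → Fin n, Surjective φ ∧ ∀ (g : G) u v, φ u = φ v → φ (g • u) = φ (g • v) := by
  -- each part is essentially inside one block
  have inj : ∀ j, ∃ u, 96 * a ≤ 100 * (#(fib f j ∩ fib K (K u)) : ℝ) := by
    intro j
    have e : ∀ F : V → ℝ, ∑ c ∈ univ.image K, ∑ v ∈ fib f j ∩ fib K c, F v =
        ∑ v ∈ fib f j, F v := by
      intro F
      rw [← sum_fiberwise_of_maps_to (s := fib f j) (t := univ.image K) (g := K)
        (fun v _ => mem_image_of_mem _ (mem_univ _))]
      refine sum_congr rfl fun c _ => sum_congr ?_ fun _ _ => rfl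
      ext v; simp
    have e1 := e fun _ => 1
    simp only [sum_const, nsmul_eq_mul, mul_one] at e1
    have h0 := la j
    obtain ⟨c, hc, c1, c2⟩ := exists_good (univ.image K) (fun c => D Γ (fib f j ∩ fib K c))
      (fun c => (#(fib f j ∩ fib K c) : ℝ)) (3 * H) (fun _ => D_nonneg ..)
      (fun _ => by positivity) (by rw [e1]; linarith) (by
        refine (sum_le_sum fun c _ => D_inter Γ f K j c).trans ?_
        rw [e, e1, sum_add_distrib, ← D_fib]
        have h1 := sum_le_sum fun u (_ : u ∈ fib f j) => Kcut u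
        rw [sum_const, nsmul_eq_mul] at h1
        have := hf j
        linarith)
    obtain ⟨u, -, rfl⟩ := mem_image.1 hc
    have := big Γ hH hno f hs hf j _ inter_subset_left c1 c2
    exact ⟨u, by linarith⟩
  choose U hU using inj
  have Uinj : Injective fun j => (⟨K (U j), U j, rfl⟩ : Set.range K) := by
    intro j k hjk
    by_contra hne
    have e : K (U j) = K (U k) := congrArg Subtype.val hjk
    have h1 := hU j
    have h2 := hU k
    have h3 := Ksize (U k)
    rw [e] at h1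
    have h4 : #(fib f j ∩ fib K (K (U k))) + #(fib f k ∩ fib K (K (U k))) ≤ #(fib K (K (U k))) := by
      rw [← card_union_of_disjoint]
      · exact card_le_card (union_subset inter_subset_right inter_subset_right)
      · rw [disjoint_left]
        intro v hv hv'
        simp only [mem_inter, mem_fib] at hv hv'
        exact hne (hv.1.symm.trans hv'.1)
    have h5 : (#(fib f j ∩ fib K (K (U k))) : ℝ) + #(fib f k ∩ fib K (K (U k))) ≤
      #(fib K (K (U k))) := by exact_mod_cast h4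
    linarith
  have hle := Fintype.card_le_of_injective _ Uinj
  rw [Fintype.card_fin] at hle
  rcases hle.lt_or_eq with hlt | heq
  · exfalso
    obtain ⟨e⟩ : Nonempty (Fin (n + 1) ↪ Set.range K) :=
      Function.Embedding.nonempty_of_card_le (by rw [Fintype.card_fin]; exact hlt)
    obtain ⟨ρ, hρ⟩ : ∃ ρ : Set.range K → Fin (n + 1), Surjective ρ :=
      ⟨_, invFun_surjective e.injective⟩
    obtain ⟨i, hi⟩ := hno (fun v => ρ ⟨K v, v, rfl⟩) (hρ.comp Set.rangeFactorization_surjective)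
    rw [D_fib] at hi
    have h1 : ∀ u, cut Γ (fun v => ρ ⟨K v, v, rfl⟩) u ≤ 2 * H := by
      intro u
      refine le_trans (sum_le_sum fun v _ => ?_) (Kcut u)
      split_ifs with p q
      · norm_num
      · exfalso
        have : K v = K u := by tauto
        exact p.2 (congrArg ρ (Subtype.ext this))
      all_goals norm_num
    have h2 := sum_le_sum fun u (_ : u ∈ fib (fun v => ρ ⟨K v, v, rfl⟩) i) => h1 u
    rw [sum_const, nsmul_eq_mul] at h2
    have : (0 : ℝ) ≤ H * #(fib (fun v => ρ ⟨K v, v, rfl⟩) i) := by positivity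
    linarith
  · let e := Fintype.equivFinOfCardEq heq.symm
    refine ⟨fun v => e ⟨K v, v, rfl⟩, e.surjective.comp Set.rangeFactorization_surjective, ?_⟩
    intro g u v h
    have : K u = K v := congrArg Subtype.val (e.injective h)
    exact congrArg e (Subtype.ext (KG g u v this))

theorem core {n : ℕ} {H : ℝ} (hH : 0 < H) [Nonempty V]
    (hadj : ∀ (g : G) u v, Γ.Adj (g • u) (g • v) ↔ Γ.Adj u v)
    (htr : ∀ u v : V, ∃ g : G, g • u = v)
    (hno : ∀ ψ : V → Fin (n + 1), Surjective ψ → ∃ i, 100 * H * #(fib ψ i) < D Γ (fib ψ i))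
    (f : V → Fin n) (hs : Surjective f) (hf : ∀ i, D Γ (fib f i) ≤ H * #(fib f i)) :
    ∃ φ : V → Fin n, Surjective φ ∧ ∀ (g : G) u v, φ u = φ v → φ (g • u) = φ (g • v) := by
  have hN : (0 : ℝ) < Fintype.card V := by exact_mod_cast Fintype.card_pos
  have hG : (0 : ℝ) < Fintype.card G := by exact_mod_cast Fintype.card_pos
  have hn : Nonempty (Fin n) := ⟨f (Classical.arbitrary V)⟩
  obtain ⟨fg, hfg⟩ : ∃ fg : G → V → Fin n, fg = fun g v => f (g • v) := ⟨_, rfl⟩
  have gs : ∀ g, Surjective (fg g) := fun g => by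
    rw [hfg]; exact hs.comp (MulAction.surjective g)
  have gc : ∀ g i, (#(fib (fg g) i) : ℝ) = #(fib f i) := fun g i => by
    rw [hfg]; exact card_tr f g i
  have gf : ∀ g i, D Γ (fib (fg g) i) ≤ H * #(fib (fg g) i) := fun g i => by
    rw [gc, hfg, D_tr Γ hadj]; exact hf i
  obtain ⟨i0, -, hi0⟩ := exists_min_image univ (fun i => (#(fib f i) : ℝ)) univ_nonempty
  obtain ⟨i1, -, hi1⟩ := exists_max_image univ (fun i => (#(fib f i) : ℝ)) univ_nonempty
  obtain ⟨a, ha⟩ : ∃ a : ℝ, a = #(fib f i0) := ⟨_, rfl⟩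
  obtain ⟨b, hb⟩ : ∃ b : ℝ, b = #(fib f i1) := ⟨_, rfl⟩
  have la : ∀ g i, a ≤ #(fib (fg g) i) := fun g i => by rw [gc, ha]; exact hi0 i (mem_univ _)
  have lb : ∀ g i, #(fib (fg g) i) ≤ b := fun g i => by rw [gc, hb]; exact hi1 i (mem_univ _)
  have a0 : 0 < a := by
    obtain ⟨v, hv⟩ := hs i0
    rw [ha]; exact_mod_cast card_pos.2 ⟨v, by simpa using hv⟩
  have f1 : fg 1 = f := by rw [hfg]; simp
  have ab0 : a ≤ b := (la 1 i0).trans (lb 1 i0)
  -- Step 1: all parts have comparable size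
  have ab : 96 * b ≤ 100 * a := by
    have key : ∀ (w F : V → ℝ), Fintype.card V * ∑ g : G, ∑ u ∈ fib (fg g) i0 ∩ fib f i1,
        w u * F (g • u) = Fintype.card G * ((∑ u ∈ fib f i1, w u) * ∑ v ∈ fib f i0, F v) := by
      intro w F
      have e : ∀ g : G, ∑ u ∈ fib (fg g) i0 ∩ fib f i1, w u * F (g • u) =
          ∑ u ∈ fib f i1, w u * if f (g • u) = i0 then F (g • u) else 0 := by
        intro g
        rw [inter_comm, ← filter_mem_eq_inter, sum_filter]
        simp [hfg]
      simp only [e]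
      rw [sum_comm, mul_sum, sum_mul, mul_sum]
      refine sum_congr rfl fun u _ => ?_
      have e2 : ∑ v ∈ fib f i0, F v = ∑ v, if f v = i0 then F v else 0 := by
        rw [fib, sum_filter]; exact sum_congr rfl fun _ _ => by congr
      rw [← mul_sum, mul_left_comm, avg htr (fun v => if f v = i0 then F v else 0) u, e2,
        mul_left_comm]
    have k1 := key (fun _ => 1) (fun _ => 1)
    simp only [mul_one, sum_const, nsmul_eq_mul, ← ha, ← hb] at k1
    have b0 : 0 < b := by linarith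
    have s1 : 0 < ∑ g : G, (#(fib (fg g) i0 ∩ fib f i1) : ℝ) := by
      refine (mul_pos_iff_of_pos_left hN).1 ?_
      rw [k1]
      positivity
    have s2 : ∑ g : G, D Γ (fib (fg g) i0 ∩ fib f i1) ≤
        2 * H * ∑ g : G, (#(fib (fg g) i0 ∩ fib f i1) : ℝ) := by
      have k2 := key (fun _ => 1) (cut Γ f)
      have k3 := key (cut Γ f) (fun _ => 1)
      simp only [mul_one, one_mul, sum_const, nsmul_eq_mul, ← ha, ← hb, ← D_fib] at k2 k3
      have k4 : ∑ g : G, D Γ (fib (fg g) i0 ∩ fib f i1) ≤ ∑ g : G, ∑ u ∈ fib (fg g) i0 ∩ fib f i1,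
          cut Γ f (g • u) + ∑ g : G, ∑ u ∈ fib (fg g) i0 ∩ fib f i1, cut Γ f u := by
        rw [← sum_add_distrib]
        refine sum_le_sum fun g _ => (D_inter ..).trans (le_of_eq ?_)
        rw [sum_add_distrib, hfg]
        simp only [cut_tr Γ hadj]
      have k5 := hf i0
      have k6 := hf i1
      rw [← ha] at k5
      rw [← hb] at k6
      refine le_of_mul_le_mul_left ?_ hN
      have k7 : Fintype.card G * (b * D Γ (fib f i0)) ≤ Fintype.card G * (b * (H * a)) := by
        gcongr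
      have k8 : Fintype.card G * (D Γ (fib f i1) * a) ≤ Fintype.card G * (H * b * a) := by
        gcongr
      have k9 := mul_le_mul_of_nonneg_left k4 hN.le
      rw [mul_add, k2, k3] at k9
      rw [mul_left_comm, k1]
      linarith
    obtain ⟨g, -, g1, g2⟩ := exists_good univ (fun g => D Γ (fib (fg g) i0 ∩ fib f i1))
      (fun g => (#(fib (fg g) i0 ∩ fib f i1) : ℝ)) (2 * H) (fun _ => D_nonneg ..)
      (fun _ => by positivity) s1 s2
    have := big Γ hH hno f hs hf i1 _ inter_subset_right g1 (by nlinarith)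
    have h2 : (#(fib (fg g) i0 ∩ fib f i1) : ℝ) ≤ #(fib (fg g) i0) := by
      exact_mod_cast card_le_card inter_subset_left
    rw [gc] at h2
    linarith
  -- Step 2: the similarity relation between translated parts
  obtain ⟨Sim, hSim⟩ : ∃ Sim : G → Fin n → G → Fin n → Prop, Sim = fun g i g' j =>
    2 * b ≤ 100 * (#(fib (fg g) i ∩ fib (fg g') j) : ℝ) := ⟨_, rfl⟩
  have b0 : 0 < b := by linarith
  have dXY : ∀ g i g' j, D Γ (fib (fg g) i) + D Γ (fib (fg g') j) ≤ 2 * H * b := by
    intro g i g' j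
    have h1 := (gf g i).trans (mul_le_mul_of_nonneg_left (lb g i) hH.le)
    have h2 := (gf g' j).trans (mul_le_mul_of_nonneg_left (lb g' j) hH.le)
    linarith
  have cs : ∀ g i g' j, (#(fib (fg g') j \ fib (fg g) i) : ℝ) + #(fib (fg g) i ∩ fib (fg g') j)
      = #(fib (fg g') j) := by
    intro g i g' j
    rw [inter_comm]; exact_mod_cast card_sdiff_add_card_inter _ _
  have dich : ∀ g i g' j, (fib (fg g) i ∩ fib (fg g') j).Nonempty →
      2 * b ≤ 100 * (#(fib (fg g') j \ fib (fg g) i) : ℝ) →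
      100 * H * #(fib (fg g) i ∩ fib (fg g') j) < D Γ (fib (fg g) i ∩ fib (fg g') j) := by
    intro g i g' j h1 h2
    have e : fib (fg g') j \ (fib (fg g) i ∩ fib (fg g') j) = fib (fg g') j \ fib (fg g) i :=
      sdiff_inter_self_right _ _
    rcases split Γ hH hno (fg g') (gs g') (gf g') j _ inter_subset_right h1
      (by rw [e]; exact card_pos.1 (by exact_mod_cast (by linarith :
        (0 : ℝ) < #(fib (fg g') j \ fib (fg g) i)))) with h | h
    · exact h
    · rw [e] at h
      have := D_sdiff Γ (fib (fg g') j) (fib (fg g) i)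
      have := dXY g' j g i
      nlinarith
  have simS : ∀ g i g' j, Sim g i g' j → Sim g' j g i := by
    intro g i g' j h; rw [hSim] at h ⊢; simp only at h ⊢; rwa [inter_comm]
  have simN : ∀ g i g' j, Sim g i g' j → (fib (fg g) i ∩ fib (fg g') j).Nonempty := by
    intro g i g' j h; rw [hSim] at h
    exact card_pos.1 (by exact_mod_cast (by linarith :
      (0 : ℝ) < #(fib (fg g) i ∩ fib (fg g') j)))
  have simB : ∀ g i g' j, Sim g i g' j → 100 * (#(fib (fg g') j \ fib (fg g) i) : ℝ) < 2 * b := by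
    intro g i g' j h
    by_contra hc
    have h1 := dich g i g' j (simN _ _ _ _ h) (not_lt.1 hc)
    have := D_inter' Γ (fib (fg g) i) (fib (fg g') j)
    have := dXY g i g' j
    rw [hSim] at h
    nlinarith
  have simT : ∀ g i g' j g'' k, Sim g i g' j → Sim g' j g'' k → Sim g i g'' k := by
    intro g i g' j g'' k h1 h2
    have h3 := simB _ _ _ _ h1
    have h4 := simB _ _ _ _ (simS _ _ _ _ h2)
    have h5 : fib (fg g') j ⊆ (fib (fg g) i ∩ fib (fg g'') k) ∪
        ((fib (fg g') j \ fib (fg g) i) ∪ (fib (fg g') j \ fib (fg g'') k)) := by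
      intro v hv
      simp only [mem_union, mem_inter, mem_sdiff]
      tauto
    have h6 := (card_le_card h5).trans ((card_union_le _ _).trans
      (Nat.add_le_add_left (card_union_le _ _) _))
    have h7 : (#(fib (fg g') j) : ℝ) ≤ #(fib (fg g) i ∩ fib (fg g'') k) +
      (#(fib (fg g') j \ fib (fg g) i) + #(fib (fg g') j \ fib (fg g'') k)) := by
      exact_mod_cast h6
    have := la g' j
    rw [hSim]
    simp only
    linarith
  have simE : ∀ g i j, Sim g i g j → i = j := by
    intro g i j h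
    obtain ⟨v, hv⟩ := simN _ _ _ _ h
    simp only [mem_inter, mem_fib] at hv
    exact hv.1.symm.trans hv.2
  have simG : ∀ γ g i g' j, Sim (g * γ) i (g' * γ) j ↔ Sim g i g' j := by
    intro γ g i g' j
    have := card_tr (fun v => (fg g v, fg g' v)) γ (i, j)
    have e1 : ∀ g g', fib (fg g) i ∩ fib (fg g') j = fib (fun v => (fg g v, fg g' v)) (i, j) := by
      intro g g'; ext v; simp
    rw [hSim]
    simp only [e1, ← this]
    simp only [hfg, mul_smul]
  -- Step 3: most vertices lie in similar parts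
  have bad : ∀ g g', 100 * ∑ u, (if Sim g (fg g u) g' (fg g' u) then (0 : ℝ) else 1)
      ≤ 2 * Fintype.card V := by
    intro g g'
    have h1 : ∑ u, 100 * H * (if Sim g (fg g u) g' (fg g' u) then (0 : ℝ) else 1) ≤
        ∑ u, (cut Γ (fg g) u + cut Γ (fg g') u) := by
      rw [← sum_fiberwise univ (fun v => (fg g v, fg g' v)),
        ← sum_fiberwise univ (fun v => (fg g v, fg g' v))]
      refine sum_le_sum fun ⟨i, j⟩ _ => ?_
      have e1 : (univ.filter fun v => (fg g v, fg g' v) = (i, j)) =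
          fib (fg g) i ∩ fib (fg g') j := by
        ext v; simp
      rw [e1, sum_congr rfl (g := fun _ => 100 * H * if Sim g i g' j then (0 : ℝ) else 1)
        (fun v hv => by simp only [mem_inter, mem_fib] at hv; rw [hv.1, hv.2])]
      refine le_trans ?_ (D_inter ..)
      split_ifs with h
      · simpa using D_nonneg Γ _
      · rcases (fib (fg g) i ∩ fib (fg g') j).eq_empty_or_nonempty with h2 | h2
        · rw [h2]; simpa using D_nonneg Γ _
        · have h3 := cs g i g' j
          have h4 := la g' j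
          rw [hSim] at h
          have := dich g i g' j h2 (by simp only [not_le] at h; linarith)
          rw [sum_const, nsmul_eq_mul]
          linarith
    rw [← mul_sum, sum_add_distrib] at h1
    have h2 := sum_cut Γ _ (gf g)
    have h3 := sum_cut Γ _ (gf g')
    refine le_of_mul_le_mul_left ?_ hH
    linarith
  obtain ⟨cnt, hcnt⟩ : ∃ cnt : V → G → Fin n → ℝ, cnt = fun u g' j =>
    ∑ g, if Sim g (fg g u) g' j then 1 else 0 := ⟨_, rfl⟩
  have fgG : ∀ γ g u, fg g (γ • u) = fg (g * γ) u := fun γ g u => by simp [hfg, mul_smul]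
  have cntG : ∀ γ u g' j, cnt (γ • u) g' j = cnt u (g' * γ) j := by
    intro γ u g' j
    rw [hcnt]
    simp only
    rw [← Equiv.sum_comp (Equiv.mulRight γ)
      (fun g => if Sim g (fg g u) (g' * γ) j then (1 : ℝ) else 0)]
    simp only [Equiv.coe_mulRight, simG, fgG]
  have main : ∀ u, ∃ g' j, 98 * (Fintype.card G : ℝ) ≤ 100 * cnt u g' j := by
    intro u
    have h1 := avg0 htr (fun u => ∑ g', ∑ g, if Sim g (fg g u) g' (fg g' u) then (0 : ℝ) else 1)
      (fun γ u => by
        simp only [fgG]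
        rw [← Equiv.sum_comp (Equiv.mulRight γ)
          (fun g' => ∑ g, if Sim g (fg g u) g' (fg g' u) then (0 : ℝ) else 1)]
        refine sum_congr rfl fun g' _ => ?_
        rw [← Equiv.sum_comp (Equiv.mulRight γ) (fun g => if Sim g (fg g u)
          (Equiv.mulRight γ g') (fg (Equiv.mulRight γ g') u) then (0 : ℝ) else 1)]
        simp only [Equiv.coe_mulRight, simG]) u
    have h2 : 100 * ∑ u, ∑ g', ∑ g, (if Sim g (fg g u) g' (fg g' u) then (0 : ℝ) else 1) ≤
        ∑ _g' : G, ∑ _g : G, 2 * (Fintype.card V : ℝ) := by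
      rw [sum_comm, mul_sum]
      refine sum_le_sum fun g' _ => ?_
      rw [sum_comm, mul_sum]
      exact sum_le_sum fun g _ => bad g g'
    rw [← h1, ← mul_assoc, mul_sum] at h2
    obtain ⟨g', -, h3⟩ := exists_le_of_sum_le univ_nonempty h2
    refine ⟨g', fg g' u, ?_⟩
    have h4 : cnt u g' (fg g' u) + ∑ g, (if Sim g (fg g u) g' (fg g' u) then (0 : ℝ) else 1) =
        Fintype.card G := by
      rw [hcnt, ← sum_add_distrib, ← card_univ, card_eq_sum_ones]
      push_cast
      exact sum_congr rfl fun g _ => by split_ifs <;> norm_num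
    rw [sum_const, card_univ, nsmul_eq_mul] at h3
    have h5 : Fintype.card V * (100 * ∑ g, (if Sim g (fg g u) g' (fg g' u) then (0 : ℝ) else 1))
      ≤ Fintype.card V * (2 * Fintype.card G) := by linarith
    have := le_of_mul_le_mul_left h5 hN
    linarith
  choose Y J hY using main
  have half : ∀ u g' j, (Fintype.card G : ℝ) < 2 * cnt u g' j ↔ Sim g' j (Y u) (J u) := by
    intro u g' j
    constructor
    · intro h
      by_contra hc
      have h2 : cnt u g' j + cnt u (Y u) (J u) ≤ Fintype.card G := by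
        rw [hcnt, ← sum_add_distrib, ← card_univ, card_eq_sum_ones]
        push_cast
        refine sum_le_sum fun g _ => ?_
        split_ifs with p q
        · exact (hc (simT _ _ _ _ _ _ (simS _ _ _ _ p) q)).elim
        all_goals norm_num
      have := hY u
      linarith
    · intro h
      have h2 : cnt u (Y u) (J u) ≤ cnt u g' j := by
        rw [hcnt]
        refine sum_le_sum fun g _ => ?_
        split_ifs with p q
        · norm_num
        · exact (q (simT _ _ _ _ _ _ p (simS _ _ _ _ h))).elim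
        all_goals norm_num
      have := hY u
      linarith
  -- Step 4: the invariant partition
  obtain ⟨K, hK⟩ : ∃ K : V → G × Fin n → Prop,
    K = fun u q => (Fintype.card G : ℝ) < 2 * cnt u q.1 q.2 := ⟨_, rfl⟩
  have KG : ∀ (γ : G) u v, K u = K v → K (γ • u) = K (γ • v) := by
    intro γ u v h
    funext q
    have := congrFun h (q.1 * γ, q.2)
    rw [hK] at this ⊢
    simpa only [cntG] using this
  have KG' : ∀ (γ : G) u v, K (γ • u) = K (γ • v) ↔ K u = K v := fun γ u v =>
    ⟨fun h => by simpa using KG γ⁻¹ _ _ h, KG γ u v⟩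
  have simR : ∀ g i, Sim g i g i := by
    intro g i
    rw [hSim]; simp only [inter_self]
    have := la g i
    linarith
  have KY : ∀ u v, K u = K v ↔ Sim (Y u) (J u) (Y v) (J v) := by
    intro u v
    rw [hK]
    constructor
    · intro h
      have := congrFun h (Y u, J u)
      simp only [half, eq_iff_iff] at this
      exact this.1 (simR _ _)
    · intro h
      funext q
      simp only [half, eq_iff_iff]
      exact ⟨fun h' => simT _ _ _ _ _ _ h' h, fun h' => simT _ _ _ _ _ _ h' (simS _ _ _ _ h)⟩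
  have Kcut : ∀ u, cut Γ K u ≤ 2 * H := by
    intro u
    have h1 := avg0 htr (cut Γ K) (fun γ u => by
      rw [← cut_tr Γ hadj, cut, cut]
      exact sum_congr rfl fun v _ => ifc (by rw [ne_eq, ne_eq, KG'])) u
    have h2 : ∀ u, Fintype.card G * cut Γ K u ≤ 2 * ∑ g, cut Γ (fg g) u := by
      intro u
      simp only [cut]
      rw [sum_comm, mul_sum, mul_sum]
      refine sum_le_sum fun v _ => ?_
      split_ifs with h
      · have h3 : cnt u (Y u) (J u) + cnt v (Y v) (J v) ≤ Fintype.card G +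
            ∑ g, if Γ.Adj u v ∧ fg g v ≠ fg g u then (1 : ℝ) else 0 := by
          rw [hcnt, ← sum_add_distrib, ← card_univ, card_eq_sum_ones]
          push_cast
          rw [← sum_add_distrib]
          refine sum_le_sum fun g _ => ?_
          split_ifs with p q r
          · norm_num
          · exfalso
            have e : fg g v = fg g u := by tauto
            rw [e] at q
            exact h.2 ((KY v u).2 (simT _ _ _ _ _ _ (simS _ _ _ _ q) p))
          all_goals norm_num
        have := hY u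
        have := hY v
        refine le_trans (?_ : _ ≤ 2 * ∑ g, if Γ.Adj u v ∧ fg g v ≠ fg g u then (1 : ℝ) else 0)
          (le_of_eq (congrArg _ (sum_congr rfl fun _ _ => ifc Iff.rfl)))
        linarith
      · rw [mul_zero]
        exact mul_nonneg two_pos.le (sum_nonneg fun _ _ => by split_ifs <;> norm_num)
    have h3 := sum_le_sum fun u (_ : u ∈ univ) => h2 u
    rw [← mul_sum, ← mul_sum, ← h1, sum_comm] at h3
    have h4 := sum_le_sum fun g (_ : g ∈ univ) => sum_cut Γ _ (gf g)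
    rw [sum_const, card_univ, nsmul_eq_mul] at h4
    refine le_of_mul_le_mul_left ?_ (mul_pos hG hN)
    linarith
  have Ksize : ∀ u, 98 * (#(fib K (K u)) : ℝ) ≤ 100 * b := by
    intro u
    have h1 : ∑ v ∈ fib K (K u), 98 * (Fintype.card G : ℝ) ≤
        ∑ v ∈ fib K (K u), 100 * ∑ g, if Sim g (fg g v) (Y u) (J u) then (1 : ℝ) else 0 := by
      refine sum_le_sum fun v hv => (hY v).trans ?_
      have := (KY v u).1 ((mem_fib _ _ _).1 hv)
      rw [hcnt]
      refine mul_le_mul_of_nonneg_left (sum_le_sum fun g _ => ?_) (by norm_num)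
      split_ifs with p q
      · norm_num
      · exact (q (simT _ _ _ _ _ _ p this)).elim
      all_goals norm_num
    have h2 : ∀ g, ∑ v ∈ fib K (K u), (if Sim g (fg g v) (Y u) (J u) then (1 : ℝ) else 0) ≤ b := by
      intro g
      rw [sum_boole]
      rcases ((fib K (K u)).filter fun v => Sim g (fg g v) (Y u) (J u)).eq_empty_or_nonempty with
        h | ⟨w, hw⟩
      · rw [h]; simpa using b0.le
      · refine le_trans ?_ (lb g (fg g w))
        refine Nat.cast_le.2 (card_le_card fun v hv => ?_)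
        rw [mem_fib]
        exact simE g _ _ (simT _ _ _ _ _ _ (mem_filter.1 hv).2 (simS _ _ _ _ (mem_filter.1 hw).2))
    rw [← mul_sum, ← mul_sum, sum_comm, sum_const, nsmul_eq_mul] at h1
    have h3 := sum_le_sum fun g (_ : g ∈ univ) => h2 g
    rw [sum_const, card_univ, nsmul_eq_mul] at h3
    refine le_of_mul_le_mul_left ?_ hG
    linarith
  exact finish Γ hH hno f hs hf K KG Kcut a b a0 ab (fun j => f1 ▸ la 1 j) Ksize

lemma pre_eq {α : Type} (φ : V → α) (i : α) : φ ⁻¹' {i} = (fib φ i : Set V) := by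
  ext v; simp

end

theorem result : ∃ C : ℝ, 0 < C ∧ ∀ (V : Type) [Fintype V] (Γ : SimpleGraph V) (n : ℕ),
    VertexTransitive Γ → 2 ≤ n → n < Fintype.card V → ¬ HasBlocks Γ n →
      h Γ (n + 1) ≤ C * h Γ n := by
  classical
  refine ⟨100, by norm_num, fun V _ Γ n htr h2 hn hB => ?_⟩
  by_contra hc
  push Not at hc
  have : Nonempty V := Fintype.card_pos_iff.1 (by omega)
  have : Nonempty (Fin n) := ⟨⟨0, by omega⟩⟩
  have : Finite (Γ ≃g Γ) := Finite.of_injective (fun g : Γ ≃g Γ => (g : V → V))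
    DFunLike.coe_injective
  have : Fintype (Γ ≃g Γ) := Fintype.ofFinite _
  obtain ⟨e⟩ : Nonempty (Fin n ↪ V) := Function.Embedding.nonempty_of_card_le (by simpa using hn.le)
  have : Nonempty {f : V → Fin n // Surjective f} := ⟨⟨_, invFun_surjective e.injective⟩⟩
  obtain ⟨⟨f, hs⟩, hf⟩ := exists_eq_ciInf_of_finite (f := fun f : {f : V → Fin n // Surjective f} =>
    ⨆ i, (bd Γ (f.1 ⁻¹' {i}) : ℝ) / (f.1 ⁻¹' {i}).ncard)
  change _ = h Γ n at hf
  have pos : ∀ {m : ℕ} (φ : V → Fin m), Surjective φ → ∀ i, (0 : ℝ) < #(fib φ i) := by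
    intro m φ hφ i
    obtain ⟨v, hv⟩ := hφ i
    exact_mod_cast card_pos.2 ⟨v, by simpa using hv⟩
  have h1 : ∀ i, D Γ (fib f i) / #(fib f i) ≤ h Γ n := by
    intro i
    rw [← hf]
    have := le_ciSup (f := fun i => (bd Γ (f ⁻¹' {i}) : ℝ) / (f ⁻¹' {i}).ncard)
      (Set.finite_range _).bddAbove i
    simpa only [pre_eq, bd_eq, Set.ncard_coe_finset] using this
  have h0 : 0 ≤ h Γ n := le_trans (div_nonneg (D_nonneg ..) (by positivity))
    (h1 (Classical.arbitrary _))
  obtain ⟨φ, hφ, hinv⟩ := core (G := Γ ≃g Γ) Γ (H := (h Γ n + h Γ (n + 1) / 100) / 2)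
    (by linarith) (fun g u v => g.map_adj_iff) htr (by
      intro ψ hψ
      by_contra hcon
      push Not at hcon
      have h3 : h Γ (n + 1) ≤ ⨆ i, (bd Γ (ψ ⁻¹' {i}) : ℝ) / (ψ ⁻¹' {i}).ncard :=
        ciInf_le (f := fun f : {f : V → Fin (n + 1) // Surjective f} =>
          ⨆ i, (bd Γ (f.1 ⁻¹' {i}) : ℝ) / (f.1 ⁻¹' {i}).ncard) (Set.finite_range _).bddBelow ⟨ψ, hψ⟩
      have h4 : ⨆ i, (bd Γ (ψ ⁻¹' {i}) : ℝ) / (ψ ⁻¹' {i}).ncard ≤
          100 * ((h Γ n + h Γ (n + 1) / 100) / 2) := by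
        refine ciSup_le fun i => ?_
        rw [pre_eq, bd_eq, Set.ncard_coe_finset, div_le_iff₀ (pos ψ hψ i)]
        exact hcon i
      linarith) f hs (fun i => by
      have := h1 i
      rw [div_le_iff₀ (pos f hs i)] at this
      refine this.trans (mul_le_mul_of_nonneg_right (by linarith) (by positivity)))
  refine hB ⟨φ, hφ, fun g i => ?_⟩
  obtain ⟨u, rfl⟩ := hφ i
  refine ⟨φ (g u), ?_⟩
  ext v
  constructor
  · rintro ⟨w, hw, rfl⟩
    exact hinv g w u hw
  · intro hv
    refine ⟨g.symm v, ?_, by simp⟩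
    have := hinv g⁻¹ v (g u) hv
    rw [show g⁻¹ • g u = u from inv_smul_smul g u] at this
    exact this

end Pool.Agent.Results.MP_f363fd_co.Yes
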